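import Pool.Agent.H41.CW.StmtD
import Pool.Agent.H76.CW.StmtC

/-! Module RTG of the board cwd_modules: transport of the orbit relation. -/

set_option autoImplicit false

open Set Pool.Agent.TK Pool.Agent.H71.VK Pool.Agent.H41.ST

namespace Pool.Agent.CW

namespace RTG

variable {C : Type}

private lemma conj_iso {M N : St C} {f h : Equiv.Perm ℕ} (hf : IsoH f M M) (hh : IsoH h M N) :
    IsoH (h * f * h⁻¹) N N := by
  constructor
  · intro u v
    have e1 := hh.1 (h⁻¹ u) (h⁻¹ v)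
    have e2 := hf.1 (h⁻¹ u) (h⁻¹ v)
    have e3 := hh.1 (f (h⁻¹ u)) (f (h⁻¹ v))
    rw [← e2, e1] at e3
    simpa [Equiv.Perm.mul_apply] using e3
  · intro l
    have e1 := hh.2 (l.map (fun x => h⁻¹ x))
    have e2 := hf.2 (l.map (fun x => h⁻¹ x))
    have e3 := hh.2 ((l.map (fun x => h⁻¹ x)).map f)
    rw [← e2, e1] at e3
    rw [List.map_map, List.map_map, List.map_map] at e3
    have e4 : l.map (⇑h ∘ fun x => h⁻¹ x) = l := by
      rw [List.map_congr_left (g := id) (fun a _ => by simp)]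
      simp
    have e5 : l.map ((⇑h ∘ ⇑f) ∘ fun x => h⁻¹ x) = l.map (h * f * h⁻¹) := by
      apply List.map_congr_left
      intro a _
      simp [Equiv.Perm.mul_apply]
    rw [e4] at e3
    rw [e3]
    exact congrArg N.2 e5

private lemma conj_apply (f h : Equiv.Perm ℕ) (x : ℕ) : (h * f * h⁻¹) (h x) = h (f x) := by
  simp [Equiv.Perm.mul_apply]

private lemma bn_iso {M N : St (C × ℕ)} {h : Equiv.Perm ℕ} (hh : IsoH h M N) (x y : ℕ) :
    bn N (h x) (h y) = bn M x y := by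
  unfold bn
  rw [hh.2 [x, y]]
  rfl

private lemma isA {O : Set (Tr C)} {M N : St (C × ℕ)} {f h : Equiv.Perm ℕ} (hIOT : T_IOT C)
    (hh : IsoH h M N) (hf : IsA O M f) : IsA O N (h * f * h⁻¹) := by
  obtain ⟨h1, π, hv, hO, hx⟩ := hf
  have hb := bn_iso hh
  refine ⟨conj_iso h1 hh, mp h π, (vd_iso h hb π).2 hv, ((hIOT M N h π hh).2.2 O).1 hO, ?_⟩
  intro x hxn
  obtain ⟨y, rfl⟩ := h.surjective x
  rw [st_iso h hb π] at hxn
  rw [conj_apply, hx y fun hy => hxn ⟨y, hy, rfl⟩]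

private lemma isS {O : Set (Tr C)} {M N : St (C × ℕ)} {f h : Equiv.Perm ℕ} (hIOT : T_IOT C)
    (hh : IsoH h M N) (hf : IsS O M f) : IsS O N (h * f * h⁻¹) := by
  obtain ⟨h1, h2, π, S, F, v, v', hF, hv, hv', hn, hO, him, hx⟩ := hf
  have hb := bn_iso hh
  have e1 : st (bn N) ((S.map h, F, h v, true) :: mp h π) =
      h '' st (bn M) ((S, F, v, true) :: π) := by
    rw [← st_iso h hb ((S, F, v, true) :: π), mp_cons]
  have e2 : st (bn N) ((S.map h, F, h v', true) :: mp h π) =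
      h '' st (bn M) ((S, F, v', true) :: π) := by
    rw [← st_iso h hb ((S, F, v', true) :: π), mp_cons]
  refine ⟨conj_iso h1 hh, ?_, mp h π, S.map h, F, h v, h v', hF, ?_, ?_, ?_, ?_, ?_, ?_⟩
  · intro x
    obtain ⟨y, rfl⟩ := h.surjective x
    rw [conj_apply, conj_apply, h2]
  · have := (vd_iso h hb ((S, F, v, true) :: π)).2 hv
    rwa [mp_cons] at this
  · have := (vd_iso h hb ((S, F, v', true) :: π)).2 hv'
    rwa [mp_cons] at this
  · rw [e1]
    rintro ⟨y, hy, hyv⟩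
    exact hn (h.injective hyv ▸ hy)
  · exact ((hIOT M N h ((S, F, v, true) :: π) hh).2.2 O).1 hO
  · rw [e1, e2, ← him, Set.image_image, Set.image_image]
    exact Set.image_congr fun x _ => conj_apply f h x
  · intro x hx1 hx2
    obtain ⟨y, rfl⟩ := h.surjective x
    rw [e1] at hx1
    rw [e2] at hx2
    rw [conj_apply, hx y (fun hy => hx1 ⟨y, hy, rfl⟩) (fun hy => hx2 ⟨y, hy, rfl⟩)]

end RTG

theorem pf_RTG {C : Type} (hIOT : T_IOT C) : T_RTG C := by
  intro O M N h hh l m hR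
  obtain ⟨n, hn, rfl⟩ := hR
  have key : NG O M ≤ (NG O N).comap (MulAut.conj h).toMonoidHom := by
    rw [NG, Subgroup.closure_le]
    rintro f (hf | hf)
    · exact Subgroup.subset_closure (Or.inl (RTG.isA hIOT hh hf))
    · exact Subgroup.subset_closure (Or.inr (RTG.isS hIOT hh hf))
  refine ⟨h * n * h⁻¹, key hn, ?_⟩
  rw [List.map_map, List.map_map]
  apply List.map_congr_left
  intro a _
  simp [Equiv.Perm.mul_apply]

end Pool.Agent.CW
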